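import Pool.Agent.K1H5.PLN.Stm

set_option autoImplicit false

/-!
# Project PLN, piece ALG: linear algebra
-/

namespace Pool.Agent.K1H8.PLN

open Matrix Pool.Agent.K1H5.PLN

/-- an eigenvalue of a matrix with entries in `A` is integral over `A` -/
theorem integral_of_eigen {n : ℕ} (A : Subring ℝ) (S : Matrix (Fin n) (Fin n) ℝ)
    (hS : ∀ i j, S i j ∈ A) (c : ℝ) (v : V n) (hv : v ≠ 0) (h : S *ᵥ v = c • v) :
    IsIntegral A c := by
  let N : Matrix (Fin n) (Fin n) A := fun i j => ⟨S i j, hS i j⟩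
  have hN : N.map (algebraMap A ℝ) = S := by
    ext i j
    rfl
  refine ⟨N.charpoly, N.charpoly_monic, ?_⟩
  rw [Polynomial.eval₂_eq_eval_map, ← Matrix.charpoly_map, hN, Matrix.eval_charpoly]
  rw [← Matrix.exists_mulVec_eq_zero_iff]
  refine ⟨v, hv, ?_⟩
  rw [Matrix.sub_mulVec, h]
  ext i
  simp [Matrix.scalar_apply, Matrix.mulVec_diagonal]

/-- the inverse of `x ∈ A` is in `A` if it is integral over `A` -/
theorem inv_mem_of_integral (A : Subring ℝ) (x : ℝ) (hx : x ∈ A) (h0 : x ≠ 0)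
    (h : IsIntegral A x⁻¹) : x⁻¹ ∈ A := by
  obtain ⟨p, hp, he⟩ := h
  obtain ⟨d, hd⟩ : ∃ d, d = p.natDegree := ⟨_, rfl⟩
  have h1 : (x⁻¹) ^ d + ∑ i ∈ Finset.range d, ((p.coeff i : A) : ℝ) * (x⁻¹) ^ i = 0 := by
    have h2 := hp.as_sum
    rw [h2] at he
    rw [Polynomial.eval₂_add, Polynomial.eval₂_pow, Polynomial.eval₂_X, Polynomial.eval₂_finsetSum]
      at he
    rw [← hd] at he
    rw [← he]
    congr 1
    refine Finset.sum_congr rfl fun i _ => ?_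
    rw [Polynomial.eval₂_mul, Polynomial.eval₂_C, Polynomial.eval₂_pow, Polynomial.eval₂_X]
    rfl
  rcases Nat.eq_zero_or_pos d with h2 | h2
  · rw [h2] at h1
    simp at h1
  obtain ⟨e, rfl⟩ : ∃ e, d = e + 1 := ⟨d - 1, by omega⟩
  have h3 : x⁻¹ = -∑ i ∈ Finset.range (e + 1), ((p.coeff i : A) : ℝ) * x ^ (e - i) := by
    have h4 : x⁻¹ = x ^ e * (x⁻¹) ^ (e + 1) := by
      rw [pow_succ, ← mul_assoc, ← mul_pow, mul_inv_cancel₀ h0, one_pow, one_mul]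
    have h5 : x ^ e * (x⁻¹) ^ (e + 1) =
        -∑ i ∈ Finset.range (e + 1), x ^ e * (((p.coeff i : A) : ℝ) * (x⁻¹) ^ i) := by
      rw [← Finset.mul_sum]
      linear_combination x ^ e * h1
    rw [h4, h5]
    congr 1
    refine Finset.sum_congr rfl fun i hi => ?_
    rw [Finset.mem_range] at hi
    have h6 : x ^ e = x ^ (e - i) * x ^ i := by
      rw [← pow_add]
      congr 1
      omega
    have h7 : x ^ i * (x⁻¹) ^ i = 1 := by
      rw [← mul_pow, mul_inv_cancel₀ h0, one_pow]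
    rw [h6]
    linear_combination (x ^ (e - i) * ((p.coeff i : A) : ℝ)) * h7
  rw [h3]
  exact A.neg_mem (A.sum_mem fun i _ => A.mul_mem (p.coeff i).2 (A.pow_mem hx _))

theorem t_ALG : S_ALG := by
  rintro n A S v a M ⟨S', hS, hS', h1, h2⟩ hv ha hM h
  have hM0 : (M : ℝ) ≠ 0 := by exact_mod_cast hM.ne'
  have haa : a ⬝ᵥ a ≠ 0 := fun h0 => ha (dotProduct_self_eq_zero.1 h0)
  obtain ⟨b, hb⟩ : ∃ b : ℝ, b = ((M : ℝ) * (a ⬝ᵥ (S *ᵥ a))) / (a ⬝ᵥ a) := ⟨_, rfl⟩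
  have hSv : S *ᵥ v = b • v := by
    have h3 := h a
    have h4 : S *ᵥ v = (a ⬝ᵥ a)⁻¹ • ((a ⬝ᵥ a) • (S *ᵥ v)) := by
      rw [smul_smul, inv_mul_cancel₀ haa, one_smul]
    rw [h4, h3, smul_smul, hb]
    congr 1
    field_simp
  have h5 : ∀ w : V n, a ⬝ᵥ (S *ᵥ w) = (b / M) * (a ⬝ᵥ w) := by
    intro w
    have h3 := h w
    rw [hSv, smul_smul] at h3
    have h4 : (a ⬝ᵥ w) * b = (M : ℝ) * (a ⬝ᵥ (S *ᵥ w)) := smul_left_injective ℝ hv h3
    field_simp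
    linarith
  have hb0 : b ≠ 0 := by
    rintro rfl
    have h3 : S' *ᵥ (S *ᵥ v) = v := by
      rw [Matrix.mulVec_mulVec, h2, Matrix.one_mulVec]
    rw [hSv, zero_smul, Matrix.mulVec_zero] at h3
    exact hv h3.symm
  have hS'v : S' *ᵥ v = b⁻¹ • v := by
    have h3 : S' *ᵥ (S *ᵥ v) = v := by
      rw [Matrix.mulVec_mulVec, h2, Matrix.one_mulVec]
    rw [hSv, Matrix.mulVec_smul] at h3
    calc S' *ᵥ v = b⁻¹ • (b • (S' *ᵥ v)) := by rw [smul_smul, inv_mul_cancel₀ hb0, one_smul]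
      _ = b⁻¹ • v := by rw [h3]
  have hT : Sᵀ *ᵥ a = (b / M) • a := by
    rw [Matrix.mulVec_transpose]
    ext i
    have h3 := h5 (Pi.single i 1)
    rw [Matrix.dotProduct_mulVec, dotProduct_single, dotProduct_single, mul_one, mul_one] at h3
    rw [h3]
    simp
  have i1 : IsIntegral A b⁻¹ := integral_of_eigen A S' hS' _ v hv hS'v
  have i2 : IsIntegral A (b / M) := integral_of_eigen A Sᵀ (fun i j => hS j i) _ a ha hT
  have i3 : IsIntegral A ((M : ℝ)⁻¹) := by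
    have h3 := i1.mul i2
    have h4 : b⁻¹ * (b / M) = (M : ℝ)⁻¹ := by
      field_simp
    rwa [h4] at h3
  exact inv_mem_of_integral A M (natCast_mem A M) hM0 i3

end Pool.Agent.K1H8.PLN
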